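import Pool.Agent.Helper10K9.HeawoodTD

/-!
# Nordhaus-Gaddum total domination when `δ* = 4`: the sum

For every `k ≥ 2` the complement `G` of the disjoint union of `k` copies of the bipartite complement
of the Heawood graph is connected, has order `n = 14 k`, `δ*(G) = 4`, and
`γ_t(G) + γ_t(Gᶜ) = 3 n / 7 + 2`.
-/

set_option autoImplicit false

namespace Pool.Agent.Results.MP_4101c8_co.SumUnbounded

open Pool.Agent.Helper10K9.HeawoodTD

/-- For every `n₀` there are `n ≥ n₀` and a connected graph `G` of order `n` with `δ*(G) = 4` and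
`γ_t(G) + γ_t(Gᶜ) = 3 n / 7 + 2 > 2 n / 5 + 2`. -/
theorem result : ∀ n₀ : ℕ, ∃ n : ℕ, n₀ ≤ n ∧ ∃ (V : Type) (_ : Fintype V) (G : SimpleGraph V),
    Fintype.card V = n ∧ G.Connected ∧ deltaStar G = 4 ∧
      ((gammaT G : ℝ) + (gammaT Gᶜ : ℝ) = 3 * (n : ℝ) / 7 + 2) ∧
      ((gammaT G : ℝ) + (gammaT Gᶜ : ℝ) > 2 * (n : ℝ) / 5 + 2) := by
  intro n₀
  refine ⟨14 * (n₀ + 2), by omega, W (n₀ + 2), inferInstance, (F (n₀ + 2))ᶜ, card_W _,
    connected_Fc _ (by omega), ?_, ?_, ?_⟩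
  · rw [deltaStar, compl_compl, minDeg_Fc _ (by omega), minDeg_F _ (by omega)]
    omega
  · rw [compl_compl, gammaT_Fc _ (by omega), gammaT_F]
    push_cast
    ring
  · rw [compl_compl, gammaT_Fc _ (by omega), gammaT_F]
    push_cast
    have : (0 : ℝ) ≤ n₀ := Nat.cast_nonneg _
    nlinarith

end Pool.Agent.Results.MP_4101c8_co.SumUnbounded
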